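import Pool.Agent.LUB.Stmts

/-!
# Squad LUB, row OST: the theorem of Ostrowski for logarithms of algebraic functions
-/

set_option autoImplicit false

open Polynomial IntermediateField

namespace Pool.Agent.LUB.H61

/-- Derivatives of polynomial expressions. -/
theorem der_aeval {K₀ Ω : Type} [Field K₀] [Field Ω] [Algebra K₀ Ω] (D₀ : K₀ → K₀)
    (D : Derivation ℤ Ω Ω) (hD : ∀ x, D (algebraMap K₀ Ω x) = algebraMap K₀ Ω (D₀ x)) (x : Ω)
    (P : K₀[X]) :
    ∃ Q : K₀[X], ((∀ a, D₀ a = 0) → Q = 0) ∧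
      D (aeval x P) = aeval x Q + aeval x (derivative P) * D x := by
  induction P using Polynomial.induction_on' with
  | add P₁ P₂ h1 h2 =>
    obtain ⟨Q₁, a1, b1⟩ := h1
    obtain ⟨Q₂, a2, b2⟩ := h2
    refine ⟨Q₁ + Q₂, fun h => by rw [a1 h, a2 h, add_zero], ?_⟩
    rw [map_add, map_add, b1, b2, derivative_add, map_add, map_add]
    ring
  | monomial n a =>
    refine ⟨monomial n (D₀ a), fun h => by rw [h a, map_zero], ?_⟩
    rw [derivative_monomial, aeval_monomial, aeval_monomial, aeval_monomial, Derivation.leibniz,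
      Derivation.leibniz_pow, hD, map_mul, map_natCast]
    simp only [smul_eq_mul, nsmul_eq_mul]
    ring

theorem der_mem {K₀ Ω : Type} [Field K₀] [Field Ω] [CharZero K₀] [Algebra K₀ Ω] (D₀ : K₀ → K₀)
    (D : Derivation ℤ Ω Ω) (hD : ∀ x, D (algebraMap K₀ Ω x) = algebraMap K₀ Ω (D₀ x)) (x : Ω)
    (hx : IsAlgebraic K₀ x) : D x ∈ IntermediateField.adjoin K₀ {x} := by
  have hi : IsIntegral K₀ x := hx.isIntegral
  set P := minpoly K₀ x with hP
  obtain ⟨Q, -, hQ⟩ := der_aeval D₀ D hD x P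
  have h1 : aeval x P = 0 := minpoly.aeval K₀ x
  have h2 : aeval x (derivative P) ≠ 0 :=
    (minpoly.irreducible hi).separable.aeval_derivative_ne_zero h1
  rw [h1, map_zero] at hQ
  have h3 : D x = -(aeval x Q) / aeval x (derivative P) := by
    rw [eq_div_iff h2]
    linear_combination -hQ
  rw [h3]
  have hmem : ∀ R : K₀[X], aeval x R ∈ IntermediateField.adjoin K₀ {x} := by
    intro R
    have h4 := Polynomial.aeval_mem_adjoin_singleton (R := K₀) (p := R) x
    exact IntermediateField.algebra_adjoin_le_adjoin K₀ {x} h4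
  exact div_mem (neg_mem (hmem Q)) (hmem _)

/-- The field of constants. -/
def cst {Ω : Type} [Field Ω] (D : Derivation ℤ Ω Ω) : Subfield Ω where
  carrier := {x | D x = 0}
  mul_mem' := by
    intro a b ha hb
    simp only [Set.mem_ofPred_eq] at ha hb ⊢
    rw [Derivation.leibniz, ha, hb, smul_zero, smul_zero, add_zero]
  one_mem' := by
    simp only [Set.mem_ofPred_eq]
    exact Derivation.map_one_eq_zero D
  add_mem' := by
    intro a b ha hb
    simp only [Set.mem_ofPred_eq] at ha hb ⊢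
    rw [map_add, ha, hb, add_zero]
  zero_mem' := by
    simp only [Set.mem_ofPred_eq]
    exact map_zero D
  neg_mem' := by
    intro a ha
    simp only [Set.mem_ofPred_eq] at ha ⊢
    rw [map_neg, ha, neg_zero]
  inv_mem' := by
    intro a ha
    simp only [Set.mem_ofPred_eq] at ha ⊢
    rw [Derivation.leibniz_inv, ha, smul_zero]

theorem cst_der {Ω : Type} [Field Ω] (D : Derivation ℤ Ω Ω) (c : cst D) :
    D (c : Ω) = 0 := c.2

/-- Elements which are not constant are transcendental over the constants. -/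
theorem transc {Ω : Type} [Field Ω] [CharZero Ω] (D : Derivation ℤ Ω Ω) (x : Ω) (hx : D x ≠ 0) :
    Transcendental (cst D) x := by
  intro halg
  have hi : IsIntegral (cst D) x := halg.isIntegral
  set P := minpoly (cst D) x with hP
  obtain ⟨Q, hQ0, hQ⟩ := der_aeval (fun _ : cst D => (0 : cst D)) D
    (fun c => by rw [map_zero]; exact c.2) x P
  have h1 : aeval x P = 0 := minpoly.aeval (cst D) x
  have h2 : aeval x (derivative P) ≠ 0 :=
    (minpoly.irreducible hi).separable.aeval_derivative_ne_zero h1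
  rw [h1, map_zero, hQ0 fun _ => rfl, map_zero, zero_add] at hQ
  exact mul_ne_zero h2 hx hQ.symm

/-- The trace argument. -/
theorem core (osb : OsbStmt) {K₀ Ω : Type} [Field K₀] [Field Ω] [CharZero K₀] [Algebra K₀ Ω]
    (D₀ : Derivation ℤ K₀ K₀) (D : Derivation ℤ Ω Ω)
    (hD : ∀ x, D (algebraMap K₀ Ω x) = algebraMap K₀ Ω (D₀ x)) {ι : Type} [Fintype ι]
    (w : ι → Ω) (a : Ω) (hw : ∀ i, IsAlgebraic K₀ (w i)) (ha : IsAlgebraic K₀ a)
    (hw0 : ∀ i, w i ≠ 0) (β : ι → K₀)
    (hrel : ∑ i, algebraMap K₀ Ω (β i) * (D (w i) / w i) = D a) (i₀ : ι) (v : K₀)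
    (hv : w i₀ = algebraMap K₀ Ω v) :
    ∃ (h : ι → K₀) (g : K₀) (d : ℕ), d ≠ 0 ∧ (∀ i, h i ≠ 0) ∧ h i₀ = v ^ d ∧
      ∑ i, β i * (D₀ (h i) / h i) = D₀ g := by
  classical
  set S : Set Ω := Set.range w ∪ {a} with hS
  have hSf : S.Finite := (Set.finite_range w).union (Set.finite_singleton a)
  have hSint : ∀ x ∈ S, IsIntegral K₀ x := by
    rintro x (⟨i, rfl⟩ | hx)
    · exact (hw i).isIntegral
    · rw [Set.mem_singleton_iff.1 hx]
      exact ha.isIntegral
  set E := IntermediateField.adjoin K₀ S with hE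
  have : Finite S := hSf
  have hfin : FiniteDimensional K₀ E := IntermediateField.finiteDimensional_adjoin hSint
  have hDE : ∀ x : E, D (x : Ω) ∈ E := by
    intro x
    have h1 : IsAlgebraic K₀ (x : Ω) := by
      have h2 : IsAlgebraic K₀ x := Algebra.IsAlgebraic.isAlgebraic x
      exact h2.algebraMap
    have h3 := der_mem D₀ D hD (x : Ω) h1
    have h4 : IntermediateField.adjoin K₀ {(x : Ω)} ≤ E := by
      rw [IntermediateField.adjoin_simple_le_iff]
      exact x.2
    exact h4 h3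
  let DE : Derivation ℤ E E := Derivation.mk'
    ((AddMonoidHom.mk' (fun x : E => (⟨D (x : Ω), hDE x⟩ : E)) (by
      intro x y
      ext
      simp)).toIntLinearMap) (by
      intro x y
      ext
      simp [Derivation.leibniz])
  have hDEv : ∀ x : E, ((DE x : E) : Ω) = D (x : Ω) := fun x => rfl
  have hcomp : ∀ x : K₀, DE (algebraMap K₀ E x) = algebraMap K₀ E (D₀ x) := by
    intro x
    apply Subtype.ext
    rw [hDEv]
    exact hD x
  obtain ⟨htr, hnm⟩ := osb K₀ E D₀ DE hcomp
  have hwE : ∀ i, w i ∈ E := fun i =>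
    IntermediateField.subset_adjoin K₀ S (Or.inl ⟨i, rfl⟩)
  have haE : a ∈ E := IntermediateField.subset_adjoin K₀ S (Or.inr rfl)
  let wE : ι → E := fun i => ⟨w i, hwE i⟩
  let aE : E := ⟨a, haE⟩
  have hwE0 : ∀ i, wE i ≠ 0 := fun i h => hw0 i (congrArg Subtype.val h)
  have hrelE : ∑ i, algebraMap K₀ E (β i) * (DE (wE i) / wE i) = DE aE := by
    apply Subtype.ext
    rw [hDEv]
    rw [← hrel]
    push_cast
    rfl
  refine ⟨fun i => Algebra.norm K₀ (wE i), Algebra.trace K₀ E aE, Module.finrank K₀ E,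
    Module.finrank_pos.ne', fun i => ?_, ?_, ?_⟩
  · exact Algebra.norm_ne_zero_iff.2 (hwE0 i)
  · have h1 : wE i₀ = algebraMap K₀ E v := Subtype.ext hv
    simp only [h1]
    rw [Algebra.norm_algebraMap]
  · rw [htr, ← hrelE, map_sum]
    refine Finset.sum_congr rfl fun i _ => ?_
    rw [hnm _ (hwE0 i), ← Algebra.smul_def, map_smul, smul_eq_mul]

theorem ost : OstStmt := by
  intro osa osb Ω _ _ D T hT ι _ β w a hβ hβi hw0 hw ha hrel i₀
  by_contra hi₀
  set v := w i₀ with hv
  have hvt : Transcendental (cst D) v := transc D v hi₀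
  have hTt : Transcendental (cst D) T := transc D T hT
  have heq : Fld D T = (IntermediateField.adjoin (cst D) {T}).toSubfield := by
    unfold Fld
    rw [IntermediateField.adjoin_toSubfield]
    congr 2
    ext x
    constructor
    · intro hx
      exact ⟨⟨x, hx⟩, rfl⟩
    · rintro ⟨c, rfl⟩
      exact c.2
  have hconv : ∀ x : Ω, IsAlgebraic (Fld D T) x →
      IsAlgebraic (Algebra.adjoin (cst D) {T}) x := by
    intro x hx
    rw [heq] at hx
    have h1 : IsAlgebraic (IntermediateField.adjoin (cst D) {T}) x := hx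
    exact IntermediateField.isAlgebraic_adjoin_iff.1 h1
  have hTv : IsAlgebraic (Algebra.adjoin (cst D) {v}) T :=
    IsAlgebraic.adjoin_singleton hTt hvt (hconv v (hw i₀))
  have hconv2 : ∀ x : Ω, IsAlgebraic (Fld D T) x →
      IsAlgebraic (IntermediateField.adjoin (cst D) {v}) x := by
    intro x hx
    refine IntermediateField.isAlgebraic_adjoin_iff.2 ?_
    refine IsAlgebraic.adjoin_of_forall_isAlgebraic (s := {T}) ?_ (hconv x hx)
    rintro y ⟨hy, -⟩
    rw [Set.mem_singleton_iff.1 hy]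
    exact hTv
  set K₀ := IntermediateField.adjoin (cst D) {v} with hK₀
  have hvK : v ∈ K₀ := IntermediateField.mem_adjoin_simple_self (cst D) v
  let D' : Derivation ℤ Ω Ω := (D v)⁻¹ • D
  have hD' : ∀ x, D' x = (D v)⁻¹ * D x := fun x => rfl
  have hD'c : ∀ c : cst D, D' (c : Ω) = 0 := by
    intro c
    rw [hD', cst_der, mul_zero]
  have hD'v : D' v = 1 := by rw [hD', inv_mul_cancel₀ hi₀]
  have hmem : ∀ x ∈ K₀, D' x ∈ K₀ := by
    intro x hx
    refine IntermediateField.adjoin_induction (cst D) (p := fun x _ => D' x ∈ K₀) ?_ ?_ ?_ ?_ ?_ hx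
    · intro y hy
      rw [Set.mem_singleton_iff.1 hy, hD'v]
      exact one_mem _
    · intro c
      have h1 : D' (algebraMap (cst D) Ω c) = 0 := hD'c c
      rw [h1]
      exact zero_mem _
    · intro y z hy hz h1 h2
      rw [map_add]
      exact add_mem h1 h2
    · intro y hy h1
      rw [Derivation.leibniz_inv, smul_eq_mul]
      exact mul_mem (neg_mem (pow_mem (inv_mem hy) 2)) h1
    · intro y z hy hz h1 h2
      rw [Derivation.leibniz, smul_eq_mul, smul_eq_mul]
      exact add_mem (mul_mem hy h2) (mul_mem hz h1)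
  let D₀ : Derivation (cst D) K₀ K₀ := Derivation.mk'
    { toFun := fun x : K₀ => (⟨D' (x : Ω), hmem _ x.2⟩ : K₀)
      map_add' := by
        intro x y
        apply Subtype.ext
        simp
      map_smul' := by
        intro c x
        apply Subtype.ext
        have h1 : D' ((c : Ω) * (x : Ω)) = (c : Ω) * D' (x : Ω) := by
          rw [Derivation.leibniz, hD'c, smul_zero, add_zero, smul_eq_mul]
        exact h1 } (by
      intro x y
      apply Subtype.ext
      have h1 : D' ((x : Ω) * (y : Ω)) = (x : Ω) * D' (y : Ω) + (y : Ω) * D' (x : Ω) := by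
        rw [Derivation.leibniz, smul_eq_mul, smul_eq_mul]
      exact h1)
  have hD₀ : ∀ x : K₀, ((D₀ x : K₀) : Ω) = D' (x : Ω) := fun x => rfl
  let e : RatFunc (cst D) ≃ₐ[cst D] K₀ := RatFunc.algEquivOfTranscendental v hvt
  have heX : e RatFunc.X = ⟨v, hvK⟩ := by
    apply Subtype.ext
    change ((RatFunc.algEquivOfTranscendental v hvt RatFunc.X :
      IntermediateField.adjoin (cst D) {v}) : Ω) = v
    rw [RatFunc.algEquivOfTranscendental_X]
  let d₀ : Derivation (cst D) (RatFunc (cst D)) (RatFunc (cst D)) := Derivation.mk'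
    (e.symm.toLinearMap ∘ₗ (D₀ : K₀ →ₗ[cst D] K₀) ∘ₗ e.toLinearMap) (by
      intro x y
      apply e.injective
      simp)
  have hd₀ : ∀ x, d₀ x = e.symm (D₀ (e x)) := fun x => rfl
  have hd₀X : d₀ RatFunc.X = 1 := by
    rw [hd₀, heX]
    have h1 : D₀ ⟨v, hvK⟩ = 1 := Subtype.ext hD'v
    rw [h1, map_one]
  let β' : ι → cst D := fun i => ⟨β i, hβ i⟩
  have hβ'i : LinearIndependent ℚ β' := by
    let f : cst D →ₗ[ℚ] Ω := ((cst D).subtype.toAddMonoidHom).toRatLinearMap
    exact LinearIndependent.of_comp f hβi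
  have hrel' : ∑ i, algebraMap K₀ Ω (algebraMap (cst D) K₀ (β' i)) * (D' (w i) / w i) = D' a := by
    rw [hD', ← hrel, Finset.mul_sum]
    refine Finset.sum_congr rfl fun i _ => ?_
    rw [hD']
    have h1 : algebraMap K₀ Ω (algebraMap (cst D) K₀ (β' i)) = β i := rfl
    rw [h1]
    ring
  obtain ⟨h, g, d, hd, hh0, hhv, hsum⟩ := core osb (D₀.restrictScalars ℤ) D' (fun x => rfl) w a
    (fun i => hconv2 _ (hw i)) (hconv2 _ ha) hw0 (fun i => algebraMap (cst D) K₀ (β' i)) hrel' i₀
    ⟨v, hvK⟩ rfl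
  refine osa (cst D) d₀ hd₀X ι β' hβ'i (fun i => e.symm (h i)) (e.symm g) i₀ d hd
    (fun i => (map_ne_zero_iff e.symm e.symm.injective).2 (hh0 i)) ?_ ?_
  · rw [hhv, map_pow, ← heX, e.symm_apply_apply]
  · apply e.injective
    rw [map_sum, hd₀, e.apply_symm_apply, e.apply_symm_apply]
    have h2 : (D₀.restrictScalars ℤ) g = D₀ g := rfl
    rw [← h2, ← hsum]
    refine Finset.sum_congr rfl fun i _ => ?_
    rw [map_mul, map_div₀, hd₀, e.apply_symm_apply, e.apply_symm_apply, e.commutes]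
    rfl

end Pool.Agent.LUB.H61
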