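import Pool.Agent.LUB.Stmts

/-!
# Squad LUB, row FRK: full rank for the linear families `P - T Q`
-/

set_option autoImplicit false

open Polynomial Filter Topology

namespace Pool.Agent.LUB.H61

/-- The product over the shifted roots is controlled by the minimal distance. -/
theorem prod_bound (b w : ℂ) (ρ : ℝ) (hρ : 0 < ρ) (s : Multiset ℂ)
    (hs : ∀ y ∈ s, ρ ≤ ‖b - y‖) :
    ‖(s.map fun y => b + w - y).prod‖ ≤
      (1 + ‖w‖ / ρ) ^ Multiset.card s * ‖(s.map fun y => b - y).prod‖ := by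
  induction s using Multiset.induction_on with
  | empty => simp
  | cons a s ih =>
    rw [Multiset.map_cons, Multiset.map_cons, Multiset.prod_cons, Multiset.prod_cons,
      Multiset.card_cons, norm_mul, norm_mul, pow_succ]
    have h1 := ih fun y hy => hs y (Multiset.mem_cons_of_mem hy)
    have h2 : ρ ≤ ‖b - a‖ := hs a (Multiset.mem_cons_self a s)
    have h3 : ‖b + w - a‖ ≤ (1 + ‖w‖ / ρ) * ‖b - a‖ := by
      have h4 : b + w - a = (b - a) + w := by ring
      have h5 : ‖w‖ ≤ ‖w‖ / ρ * ‖b - a‖ := by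
        rw [div_mul_eq_mul_div, le_div_iff₀ hρ]
        exact mul_le_mul_of_nonneg_left h2 (norm_nonneg _)
      rw [h4]
      calc ‖(b - a) + w‖ ≤ ‖b - a‖ + ‖w‖ := norm_add_le _ _
        _ ≤ ‖b - a‖ + ‖w‖ / ρ * ‖b - a‖ := by linarith
        _ = _ := by ring
    have h6 : 0 ≤ 1 + ‖w‖ / ρ := by positivity
    calc ‖b + w - a‖ * ‖(s.map fun y => b + w - y).prod‖
        ≤ ((1 + ‖w‖ / ρ) * ‖b - a‖) * ((1 + ‖w‖ / ρ) ^ Multiset.card s *
          ‖(s.map fun y => b - y).prod‖) :=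
          mul_le_mul h3 h1 (norm_nonneg _) (by positivity)
      _ = _ := by ring

/-- A root of `P - k Q` near a root `b` of `Q`. -/
theorem near_root (P Q : ℂ[X]) (hP : P.Monic) (hd : Q.natDegree < P.natDegree) (hQ : Q ≠ 0)
    (b : ℂ) (hQb : Q.eval b = 0) (hPb : P.eval b ≠ 0) :
    ∃ A : ℝ, ∀ᶠ k : ℕ in atTop, ∃ z : ℂ, (P - C (k : ℂ) * Q).eval z = 0 ∧ z ≠ b ∧
      Real.log ‖z - b‖ ≤ -(1 / (P.natDegree : ℝ)) * Real.log k + A := by
  obtain ⟨x, hx⟩ : ∃ x, Q.eval x ≠ 0 := by
    by_contra h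
    push Not at h
    exact hQ (Polynomial.funext fun r => by rw [h r, eval_zero])
  set w := x - b with hw
  have hwx : b + w = x := by rw [hw]; ring
  have hw0 : w ≠ 0 := by
    rintro h
    rw [h, add_zero] at hwx
    exact hx (hwx ▸ hQb)
  have hwn : 0 < ‖w‖ := norm_pos_iff.2 hw0
  set n := P.natDegree with hn
  have hn0 : 0 < n := by omega
  have hnR : (0 : ℝ) < n := by exact_mod_cast hn0
  set q := ‖Q.eval x‖ with hq
  have hq0 : 0 < q := norm_pos_iff.2 hx
  set a := ‖P.eval x‖ with ha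
  set β := ‖P.eval b‖ with hβ
  have hβ0 : 0 < β := norm_pos_iff.2 hPb
  -- constants
  have hlim : Tendsto (fun k : ℕ => (k : ℝ)) atTop atTop := tendsto_natCast_atTop_atTop
  refine ⟨Real.log (2 * ‖w‖) - (1 / (n : ℝ)) * Real.log (q / (2 * β)), ?_⟩
  filter_upwards [hlim.eventually_ge_atTop (2 * a / q),
    hlim.eventually_gt_atTop (2 ^ n * (2 * β) / q), hlim.eventually_ge_atTop 1] with k hk1 hk2 hk3
  set G := P - C (k : ℂ) * Q with hG
  have hdeg : (C (k : ℂ) * Q).degree < P.degree :=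
    degree_lt_degree (lt_of_le_of_lt (natDegree_C_mul_le _ _) hd)
  have hGm : G.Monic := hP.sub_of_left hdeg
  have hGn : G.natDegree = n := by
    rw [hG]
    exact natDegree_sub_eq_left_of_natDegree_lt (lt_of_le_of_lt (natDegree_C_mul_le _ _) hd)
  have hsp : G.Splits := IsAlgClosed.splits G
  have hcard : Multiset.card G.roots = n := by
    rw [← hGn]
    exact hsp.natDegree_eq_card_roots.symm
  have hne : G.roots.toFinset.Nonempty := by
    rw [Finset.nonempty_iff_ne_empty]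
    intro h
    rw [Multiset.toFinset_eq_empty] at h
    rw [h] at hcard
    simp at hcard
    omega
  obtain ⟨z, hz, hmin⟩ := Finset.exists_min_image G.roots.toFinset (fun y => ‖b - y‖) hne
  rw [Multiset.mem_toFinset] at hz
  have hGz : G.eval z = 0 := (mem_roots hGm.ne_zero).1 hz
  have hGb : G.eval b = P.eval b := by
    rw [hG, eval_sub, eval_mul, hQb]
    simp
  have hzb : z ≠ b := by
    rintro rfl
    exact hPb (hGb ▸ hGz)
  have hρ : 0 < ‖b - z‖ := norm_pos_iff.2 (sub_ne_zero.2 hzb.symm)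
  refine ⟨z, hGz, hzb, ?_⟩
  have hkey := prod_bound b w ‖b - z‖ hρ G.roots
    fun y hy => hmin y (Multiset.mem_toFinset.2 hy)
  rw [← hsp.eval_eq_prod_roots_of_monic hGm, ← hsp.eval_eq_prod_roots_of_monic hGm, hcard, hGb,
    hwx] at hkey
  have hlow : (k : ℝ) * q / 2 ≤ ‖G.eval x‖ := by
    have h1 : G.eval x = P.eval x - (k : ℂ) * Q.eval x := by
      rw [hG, eval_sub, eval_mul, eval_C]
    have h2 : ‖(k : ℂ) * Q.eval x‖ = (k : ℝ) * q := by
      rw [norm_mul, Complex.norm_natCast]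
    have h3 : ‖(k : ℂ) * Q.eval x‖ ≤ ‖P.eval x - (k : ℂ) * Q.eval x‖ + ‖P.eval x‖ := by
      have h5 : (k : ℂ) * Q.eval x = P.eval x - (P.eval x - (k : ℂ) * Q.eval x) := by ring
      calc ‖(k : ℂ) * Q.eval x‖ = ‖P.eval x - (P.eval x - (k : ℂ) * Q.eval x)‖ := by rw [← h5]
        _ ≤ ‖P.eval x‖ + ‖P.eval x - (k : ℂ) * Q.eval x‖ := norm_sub_le _ _
        _ = _ := by ring
    have h4 : 2 * a ≤ (k : ℝ) * q := by
      rwa [div_le_iff₀ hq0] at hk1
    rw [h1]
    rw [h2] at h3
    linarith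
  have hkR : (0 : ℝ) < k := by linarith
  have hmain : (k : ℝ) * (q / (2 * β)) ≤ (1 + ‖w‖ / ‖b - z‖) ^ n := by
    have h1 : (k : ℝ) * q / 2 ≤ (1 + ‖w‖ / ‖b - z‖) ^ n * β := hlow.trans hkey
    have h2 : (k : ℝ) * (q / (2 * β)) = (k * q / 2) / β := by
      field_simp
    rw [h2, div_le_iff₀ hβ0]
    exact h1
  have hle : ‖b - z‖ ≤ ‖w‖ := by
    by_contra h
    push Not at h
    have h1 : ‖w‖ / ‖b - z‖ ≤ 1 := by
      rw [div_le_one hρ]
      exact h.le
    have h2 : (1 + ‖w‖ / ‖b - z‖) ^ n ≤ 2 ^ n := by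
      refine pow_le_pow_left₀ (by positivity) ?_ n
      linarith
    have h3 : (k : ℝ) * (q / (2 * β)) ≤ 2 ^ n := hmain.trans h2
    have h4 : 2 ^ n * (2 * β) < k * q := by
      rwa [div_lt_iff₀ hq0] at hk2
    have h5 : (k : ℝ) * (q / (2 * β)) = k * q / (2 * β) := by ring
    rw [h5, div_le_iff₀ (by positivity)] at h3
    linarith
  have h1 : 1 + ‖w‖ / ‖b - z‖ ≤ 2 * ‖w‖ / ‖b - z‖ := by
    have h2 : 1 ≤ ‖w‖ / ‖b - z‖ := by
      rw [one_le_div hρ]
      exact hle
    have h3 : 2 * ‖w‖ / ‖b - z‖ = ‖w‖ / ‖b - z‖ + ‖w‖ / ‖b - z‖ := by ring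
    linarith
  have h2 : (k : ℝ) * (q / (2 * β)) ≤ (2 * ‖w‖ / ‖b - z‖) ^ n :=
    hmain.trans (pow_le_pow_left₀ (by positivity) h1 n)
  have h3 := Real.log_le_log (by positivity) h2
  rw [Real.log_mul (by positivity) (by positivity), Real.log_pow,
    Real.log_div (x := 2 * ‖w‖) (by positivity) (by positivity)] at h3
  have h4 : ‖z - b‖ = ‖b - z‖ := norm_sub_rev _ _
  rw [h4]
  have h5 : Real.log k / n + Real.log (q / (2 * β)) / n ≤
      Real.log (2 * ‖w‖) - Real.log ‖b - z‖ := by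
    rw [← add_div, div_le_iff₀ hnR]
    linarith
  have h6 : -(1 / (n : ℝ)) * Real.log k = - (Real.log k / n) := by ring
  have h7 : (1 / (n : ℝ)) * Real.log (q / (2 * β)) = Real.log (q / (2 * β)) / n := by ring
  rw [h6, h7]
  linarith

/-- The coefficients of `P - T Q` specialized. -/
theorem sp_fam (P Q : ℤ[X]) (t : ℤ) :
    sp (P.map C - C X * Q.map C : ℤ[X][X]) t = P - C t * Q := by
  unfold sp
  have h : ∀ R : ℤ[X], (R.map C).map (evalRingHom t) = R := by
    intro R
    rw [Polynomial.map_map]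
    have : (evalRingHom t).comp (C : ℤ →+* ℤ[X]) = RingHom.id ℤ := by
      ext
      simp
    rw [this, Polynomial.map_id]
  rw [Polynomial.map_sub, Polynomial.map_mul, h, h, map_C]
  simp

theorem sp_const (g : ℤ[X]) (t : ℤ) : sp (g.map C) t = g := by
  unfold sp
  rw [Polynomial.map_map]
  have : (evalRingHom t).comp (C : ℤ →+* ℤ[X]) = RingHom.id ℤ := by
    ext
    simp
  rw [this, Polynomial.map_id]

/-- Coprime polynomials over the rationals have no common complex root. -/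
theorem no_common_root (P g : ℤ[X])
    (h : IsCoprime (P.map (Int.castRingHom ℚ)) (g.map (Int.castRingHom ℚ))) (z : ℂ)
    (hP : aeval z P = 0) (hg : aeval z g = 0) : False := by
  obtain ⟨a, b, hab⟩ := h
  have h1 := congrArg (fun p => aeval z p) hab
  have h2 : ∀ R : ℤ[X], aeval z (R.map (Int.castRingHom ℚ)) = aeval z R := by
    intro R
    have := Polynomial.aeval_map_algebraMap (A := ℚ) z R
    simpa using this
  simp only [map_add, map_mul, h2, hP, hg, mul_zero, add_zero, map_one] at h1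
  exact zero_ne_one h1

theorem frk : FrkStmt := by
  intro P Q r g hP hQ hd hg hgQ hcP hcg
  -- the complex roots
  have hroot : ∀ i, ∃ b : ℂ, aeval b (g i) = 0 := by
    intro i
    exact IsAlgClosed.exists_aeval_eq_zero ℂ (g i)
      (fun h => (hg i).ne' (natDegree_eq_of_degree_eq_some h))
  choose b hb using hroot
  have hQb : ∀ i, aeval (b i) Q = 0 := by
    intro i
    obtain ⟨q, hq⟩ := hgQ i
    rw [hq, map_mul, hb i, zero_mul]
  have hPb : ∀ i, aeval (b i) P ≠ 0 := fun i h => no_common_root P (g i) (hcP i) (b i) h (hb i)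
  have hgb : ∀ i l, l ≠ i → aeval (b i) (g l) ≠ 0 := fun i l hil h =>
    no_common_root (g l) (g i) (hcg l i hil) (b i) h (hb i)
  have hinj : Function.Injective (algebraMap ℤ ℂ) := by
    simpa using (algebraMap ℤ ℂ).injective_int
  have hmapQ : Q.map (algebraMap ℤ ℂ) ≠ 0 := (Polynomial.map_ne_zero_iff hinj).2 hQ
  have hmapd : (Q.map (algebraMap ℤ ℂ)).natDegree < (P.map (algebraMap ℤ ℂ)).natDegree := by
    rw [natDegree_map_eq_of_injective hinj, natDegree_map_eq_of_injective hinj]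
    exact hd
  have hPn : (P.map (algebraMap ℤ ℂ)).natDegree = P.natDegree :=
    natDegree_map_eq_of_injective hinj P
  have hev : ∀ (R : ℤ[X]) (z : ℂ), (R.map (algebraMap ℤ ℂ)).eval z = aeval z R := by
    intro R z
    rw [eval_map_algebraMap]
  have hnr : ∀ i, ∃ A : ℝ, ∀ᶠ k : ℕ in atTop, ∃ z : ℂ,
      aeval z (P - C (k : ℤ) * Q) = 0 ∧ z ≠ b i ∧
      Real.log ‖z - b i‖ ≤ -(1 / (P.natDegree : ℝ)) * Real.log k + A := by
    intro i
    obtain ⟨A, hA⟩ := near_root (P.map (algebraMap ℤ ℂ)) (Q.map (algebraMap ℤ ℂ))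
      (hP.map _) hmapd hmapQ (b i) (by rw [hev]; exact hQb i) (by rw [hev]; exact hPb i)
    refine ⟨A, hA.mono ?_⟩
    rintro k ⟨z, h1, h2, h3⟩
    refine ⟨z, ?_, h2, ?_⟩
    · rw [eval_sub, eval_mul, eval_C, hev, hev] at h1
      simpa using h1
    · rwa [hPn] at h3
  choose A hA using hnr
  choose z hz using fun i => (hA i).choice
  have hn0 : (0 : ℝ) < P.natDegree := by
    have : 0 < P.natDegree := by omega
    exact_mod_cast this
  have hlogk : Tendsto (fun k : ℕ => Real.log (k : ℝ)) atTop atTop :=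
    Real.tendsto_log_atTop.comp tendsto_natCast_atTop_atTop
  -- the roots converge
  have hlogz : ∀ i, Tendsto (fun k => Real.log ‖z i k - b i‖) atTop atBot := by
    intro i
    refine tendsto_atBot_mono' atTop ((hz i).mono fun k hk => hk.2.2) ?_
    refine tendsto_atBot_add_const_right _ _ ?_
    exact Tendsto.const_mul_atTop_of_neg (by
      have : 0 < 1 / (P.natDegree : ℝ) := by positivity
      linarith) hlogk
  have hzb : ∀ i, Tendsto (z i) atTop (𝓝 (b i)) := by
    intro i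
    rw [tendsto_iff_norm_sub_tendsto_zero]
    have h1 : Tendsto (fun k => Real.exp (Real.log ‖z i k - b i‖)) atTop (𝓝 0) :=
      Real.tendsto_exp_atBot.comp (hlogz i)
    refine h1.congr' ((hz i).mono fun k hk => ?_)
    exact Real.exp_log (norm_pos_iff.2 (sub_ne_zero.2 hk.2.1))
  have hgz : ∀ i, ∀ᶠ k in atTop, aeval (z i k) (g i) ≠ 0 := by
    intro i
    refine (hz i).mono fun k hk h => ?_
    obtain ⟨q, hq⟩ := hgQ i
    have h1 : aeval (z i k) Q = 0 := by rw [hq, map_mul, h, zero_mul]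
    have h2 : aeval (z i k) P = 0 := by
      have h3 := hk.1
      rw [map_sub, map_mul, h1, mul_zero, sub_zero] at h3
      exact h3
    exact no_common_root P (g i) (hcP i) (z i k) h2 h
  -- diagonal entries
  have hdiag : ∀ i, ∃ B : ℝ, ∀ᶠ k in atTop, Real.log ‖aeval (z i k) (g i)‖ ≤
      -(1 / (P.natDegree : ℝ)) * Real.log (k : ℕ) + B := by
    intro i
    set p := (g i).map (algebraMap ℤ ℂ) with hp
    set h := p /ₘ (X - C (b i)) with hh
    have hfac : (X - C (b i)) * h = p :=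
      mul_divByMonic_eq_iff_isRoot.2 (by rw [IsRoot, hp, hev]; exact hb i)
    have hval : ∀ x, aeval x (g i) = (x - b i) * h.eval x := by
      intro x
      rw [← hev, ← hp, ← hfac, eval_mul, eval_sub, eval_X, eval_C]
    have hlim : Tendsto (fun k => ‖h.eval (z i k)‖) atTop (𝓝 ‖h.eval (b i)‖) :=
      ((h.continuous.tendsto (b i)).comp (hzb i)).norm
    refine ⟨A i + Real.log (‖h.eval (b i)‖ + 1), ?_⟩
    filter_upwards [hz i, hgz i, hlim.eventually_le_const (lt_add_one _)] with k h1 h2 h3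
    rw [hval] at h2 ⊢
    have h4 : ‖z i k - b i‖ ≠ 0 := norm_ne_zero_iff.2 (left_ne_zero_of_mul h2)
    have h5 : ‖h.eval (z i k)‖ ≠ 0 := norm_ne_zero_iff.2 (right_ne_zero_of_mul h2)
    rw [norm_mul, Real.log_mul h4 h5]
    have h6 : Real.log ‖h.eval (z i k)‖ ≤ Real.log (‖h.eval (b i)‖ + 1) :=
      Real.log_le_log (lt_of_le_of_ne (norm_nonneg _) h5.symm) h3
    linarith [h1.2.2]
  have hd1 : ∀ i, ∀ᶠ k in atTop, Real.log ‖aeval (z i k) (g i)‖ ≤
      -(1 / (2 * P.natDegree : ℝ) * Real.log (k : ℕ)) := by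
    intro i
    obtain ⟨B, hB⟩ := hdiag i
    filter_upwards [hB, hlogk.eventually_ge_atTop (2 * P.natDegree * B)] with k h1 h2
    refine h1.trans ?_
    have h3 : B ≤ 1 / (2 * P.natDegree : ℝ) * Real.log (k : ℕ) := by
      rw [div_mul_eq_mul_div, one_mul, le_div_iff₀ (by positivity)]
      linarith
    have h4 : (1 / (P.natDegree : ℝ)) * Real.log (k : ℕ) =
        2 * (1 / (2 * P.natDegree : ℝ) * Real.log (k : ℕ)) := by
      field_simp
    linarith
  set d : Fin r → ℕ → ℝ := fun i k => Real.log ‖aeval (z i k) (g i)‖ with hdd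
  have hdlim : ∀ i, Tendsto (d i) atTop atBot := by
    intro i
    refine tendsto_atBot_mono' atTop (hd1 i) ?_
    exact tendsto_neg_atTop_atBot.comp (hlogk.const_mul_atTop (by positivity))
  have hdne : ∀ i, ∀ᶠ k in atTop, d i k ≠ 0 := fun i =>
    (((hdlim i).eventually_lt_atBot 0)).mono fun k hk => hk.ne
  -- the normalised matrix
  set N : ℕ → Matrix (Fin r) (Fin r) ℝ := fun k =>
    Matrix.of fun l i => Real.log ‖aeval (z i k) (g l)‖ / d i k with hN
  have hNlim : Tendsto N atTop (𝓝 1) := by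
    refine tendsto_pi_nhds.2 fun l => tendsto_pi_nhds.2 fun i => ?_
    rcases eq_or_ne l i with h | h
    · subst h
      rw [Matrix.one_apply_eq]
      refine tendsto_const_nhds.congr' ((hdne l).mono fun k hk => ?_)
      simp only [hN, Matrix.of_apply]
      rw [div_self hk]
    · rw [Matrix.one_apply_ne h]
      have h1 : Tendsto (fun k => Real.log ‖aeval (z i k) (g l)‖) atTop
          (𝓝 (Real.log ‖aeval (b i) (g l)‖)) := by
        refine Tendsto.log ?_ (norm_ne_zero_iff.2 (hgb i l h))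
        refine Tendsto.norm ?_
        have h2 : Tendsto (fun x : ℂ => aeval x (g l)) (𝓝 (b i)) (𝓝 (aeval (b i) (g l))) :=
          ((g l).continuous_aeval).tendsto (b i)
        exact h2.comp (hzb i)
      exact h1.div_atBot (hdlim i)
  have hdet : Tendsto (fun k => (N k).det) atTop (𝓝 1) := by
    have h1 : Continuous fun M : Matrix (Fin r) (Fin r) ℝ => M.det :=
      continuous_id.matrix_det
    have h2 := (h1.tendsto 1).comp hNlim
    rwa [Matrix.det_one] at h2
  refine ⟨1 / 2 * (1 / (2 * P.natDegree : ℝ)) ^ r, by positivity, ?_⟩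
  refine Set.infinite_of_forall_exists_gt fun a => ?_
  have hall : ∀ᶠ k : ℕ in atTop, (∀ i, aeval (z i k) (P - C (k : ℤ) * Q) = 0 ∧
      Real.log ‖aeval (z i k) (g i)‖ ≤ -(1 / (2 * P.natDegree : ℝ) * Real.log (k : ℕ)) ∧
      d i k ≠ 0) := by
    refine eventually_all.2 fun i => ?_
    filter_upwards [hz i, hd1 i, hdne i] with k h1 h2 h3
    exact ⟨h1.1, h2, h3⟩
  obtain ⟨k, hk, hk1, hk2, hk3⟩ := (hall.and ((hdet.eventually_const_le
    (show (1 / 2 : ℝ) < 1 by norm_num)).and ((eventually_gt_atTop a.toNat).and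
      (eventually_ge_atTop 1)))).exists
  refine ⟨(k : ℤ), ⟨fun i => z i k, ?_, ?_⟩, ?_⟩
  · intro i
    rw [sp_fam]
    exact (hk i).1
  · have hkR : (1 : ℝ) ≤ (k : ℝ) := by exact_mod_cast hk3
    have hlk : 0 ≤ Real.log (k : ℝ) := Real.log_nonneg hkR
    have h1 : (Matrix.of fun i j => Real.log ‖aeval (z j k) (sp ((g i).map C) (k : ℤ))‖) =
        Matrix.of fun i j => d j k * N k i j := by
      ext i j
      simp only [Matrix.of_apply, hN]
      rw [sp_const, mul_div_cancel₀ _ (hk j).2.2]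
    have h2 : ((k : ℤ) : ℝ) = (k : ℝ) := by push_cast; rfl
    rw [h1, Matrix.det_mul_row, abs_mul, Finset.abs_prod, h2, abs_of_nonneg (by positivity)]
    have h3 : (1 / (2 * P.natDegree : ℝ) * Real.log k) ^ r ≤ ∏ i, |d i k| := by
      have h4 : ∏ _i : Fin r, (1 / (2 * P.natDegree : ℝ) * Real.log k) ≤ ∏ i, |d i k| := by
        refine Finset.prod_le_prod (fun i _ => by positivity) fun i _ => ?_
        have h5 := (hk i).2.1
        have h6 : -d i k ≤ |d i k| := neg_le_abs _
        simp only [hdd] at h6 ⊢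
        linarith
      simpa using h4
    have h4 : (1 / 2 : ℝ) ≤ |(N k).det| := hk1.trans (le_abs_self _)
    calc 1 / 2 * (1 / (2 * P.natDegree : ℝ)) ^ r * Real.log k ^ r
        = (1 / (2 * P.natDegree : ℝ) * Real.log k) ^ r * (1 / 2) := by rw [mul_pow]; ring
      _ ≤ (∏ i, |d i k|) * |(N k).det| :=
          mul_le_mul h3 h4 (by norm_num) (Finset.prod_nonneg fun i _ => abs_nonneg _)
  · omega

end Pool.Agent.LUB.H61
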